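import Mathlib

/-!
# MP_04fd10_lc, Q1: a compact action realization need not give one on the Cantor space

For every `κ` with `2 ≤ κ ≤ ℵ₀` there is a countable Borel equivalence relation on an uncountable
standard Borel space which has exactly one class with more than one element, and this class has `κ`
elements.  It admits a compact action realization (the class is an orbit of isolated points of a
compact space), but it admits none whose underlying space is the Cantor space: for a continuous
action on the Cantor space with this orbit equivalence relation the closed set of fixed points of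
every group element would be co-countable, hence everything.
-/

set_option autoImplicit false

namespace Pool.Agent.Results.MP_04fd10_lc.NoCantorRealizationH3

/-- `E` is a countable Borel equivalence relation on the measurable space `X`. -/
def IsCBER {X : Type} [MeasurableSpace X] (E : X → X → Prop) : Prop :=
  Equivalence E ∧ MeasurableSet {p : X × X | E p.1 p.2} ∧ ∀ x, {y | E x y}.Countable

/-- `E` is Borel isomorphic to the orbit equivalence relation of a continuous action of a countable
group `Γ` on the topological space `K`: there is a Borel bijection `f : X → K` such that `x E y` if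
and only if `f y = γ • f x` for some `γ : Γ`. -/
def RealizedOn {X : Type} [MeasurableSpace X] (E : X → X → Prop) (K : Type)
    [TopologicalSpace K] : Prop :=
  ∃ (Γ : Type) (_ : Group Γ) (_ : Countable Γ) (_ : MulAction Γ K),
    (∀ γ : Γ, Continuous fun y : K => γ • y) ∧
    ∃ f : X → K, @Measurable X K _ (borel K) f ∧ Function.Bijective f ∧
      ∀ x y, E x y ↔ ∃ γ : Γ, f y = γ • f x

/-- `E` admits a compact action realization: it is realized on some compact metrizable space. -/
def AdmitsCompactActionRealization {X : Type} [MeasurableSpace X] (E : X → X → Prop) : Prop :=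
  ∃ (K : Type) (_ : TopologicalSpace K), CompactSpace K ∧ TopologicalSpace.MetrizableSpace K ∧
    RealizedOn E K

/-- The space of the functions `ZMod n → Bool` which are `true` at most once. -/
abbrev Sunny (n : ℕ) : Type :=
  {x : ZMod n → Bool // ∀ i j, x i = true → x j = true → i = j}

lemma isClosed_sunny (n : ℕ) :
    IsClosed {x : ZMod n → Bool | ∀ i j, x i = true → x j = true → i = j} := by
  have h : {x : ZMod n → Bool | ∀ i j, x i = true → x j = true → i = j} =
      ⋂ i : ZMod n, ⋂ j : ZMod n, {x : ZMod n → Bool | x i = true → x j = true → i = j} := by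
    ext x
    simp
  rw [h]
  refine isClosed_iInter fun i => isClosed_iInter fun j => ?_
  have h2 : {x : ZMod n → Bool | x i = true → x j = true → i = j} =
      (fun x : ZMod n → Bool => (x i, x j)) ⁻¹' {p | p.1 = true → p.2 = true → i = j} := rfl
  rw [h2]
  exact (isClosed_discrete _).preimage ((continuous_apply i).prodMk (continuous_apply j))

instance (n : ℕ) : CompactSpace (Sunny n) := isCompact_iff_compactSpace.1 (isClosed_sunny n).isCompact

instance (n : ℕ) : Countable (ZMod n) := by
  cases n with
  | zero => exact inferInstanceAs (Countable ℤ)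
  | succ n => exact inferInstanceAs (Countable (Fin (n + 1)))

instance (n : ℕ) : TopologicalSpace.MetrizableSpace (Sunny n) :=
  Topology.IsEmbedding.metrizableSpace Topology.IsEmbedding.subtypeVal

/-- The shift of `ZMod n` on `Sunny n`. -/
def shift {n : ℕ} (a : ZMod n) (x : Sunny n) : Sunny n :=
  ⟨fun i => x.1 (i - a), fun i j hi hj => by
    have := x.2 _ _ hi hj
    simpa using this⟩

/-- The space `X`: a Cantor space and, disjoint from it, `Sunny n`. -/
abbrev Sp (n : ℕ) : Type := (ℕ → Bool) ⊕ Sunny n

/-- The action of `ZMod n` on `X`, trivial on the Cantor space and the shift on `Sunny n`. -/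
def act {n : ℕ} (a : ZMod n) (x : Sp n) : Sp n := Sum.map id (shift a) x

instance action (n : ℕ) : MulAction (Multiplicative (ZMod n)) (Sp n) where
  smul g x := act (Multiplicative.toAdd g) x
  one_smul x := by
    show act (0 : ZMod n) x = x
    rcases x with x | x
    · rfl
    · show Sum.inr (shift 0 x) = Sum.inr x
      congr 1
      apply Subtype.ext
      funext i
      simp [shift]
  mul_smul g h x := by
    show act (Multiplicative.toAdd g + Multiplicative.toAdd h) x =
      act (Multiplicative.toAdd g) (act (Multiplicative.toAdd h) x)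
    rcases x with x | x
    · rfl
    · show Sum.inr (shift _ x) = Sum.inr (shift _ (shift _ x))
      congr 1
      apply Subtype.ext
      funext i
      simp [shift, sub_sub]

lemma smul_inl {n : ℕ} (g : Multiplicative (ZMod n)) (x : ℕ → Bool) :
    g • (Sum.inl x : Sp n) = Sum.inl x := rfl

lemma smul_inr {n : ℕ} (g : Multiplicative (ZMod n)) (x : Sunny n) :
    g • (Sum.inr x : Sp n) = Sum.inr (shift (Multiplicative.toAdd g) x) := rfl

lemma continuous_shift {n : ℕ} (a : ZMod n) : Continuous (shift a : Sunny n → Sunny n) := by
  apply Continuous.subtype_mk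
  apply continuous_pi
  intro i
  exact (continuous_apply (i - a)).comp continuous_subtype_val

lemma continuous_smul {n : ℕ} (g : Multiplicative (ZMod n)) :
    Continuous fun x : Sp n => g • x :=
  Continuous.sumMap continuous_id (continuous_shift _)

/-- The orbit equivalence relation of the action of `ZMod n` on `X`. -/
def E (n : ℕ) (x y : Sp n) : Prop := ∃ g : Multiplicative (ZMod n), y = g • x

/-- The point of `Sunny n` which is `true` at `0`. -/
def pt (n : ℕ) : Sunny n := ⟨fun i => decide (i = 0), fun i j hi hj => by
  simp only [decide_eq_true_eq] at hi hj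
  rw [hi, hj]⟩

lemma shift_pt_inj {n : ℕ} : Function.Injective fun a : ZMod n => shift a (pt n) := by
  intro a b h
  have h1 := congrArg (fun x : Sunny n => x.1 a) h
  simpa [shift, pt, sub_eq_zero] using h1

lemma class_pt (n : ℕ) :
    {y | E n (Sum.inr (pt n)) y} = Set.range fun a : ZMod n => (Sum.inr (shift a (pt n)) : Sp n) := by
  ext y
  constructor
  · rintro ⟨g, rfl⟩
    exact ⟨Multiplicative.toAdd g, rfl⟩
  · rintro ⟨a, rfl⟩
    exact ⟨Multiplicative.ofAdd a, rfl⟩

/-- All other classes are singletons. -/
lemma other {n : ℕ} (x : Sp n) (hx : ¬ E n (Sum.inr (pt n)) x) (y : Sp n) (h : E n x y) : y = x := by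
  obtain ⟨g, rfl⟩ := h
  rcases x with x | x
  · rfl
  · rw [smul_inr]
    congr 1
    apply Subtype.ext
    have h0 : ∀ i, x.1 i = false := by
      intro i
      by_contra hi
      rw [Bool.not_eq_false] at hi
      apply hx
      refine ⟨Multiplicative.ofAdd i, ?_⟩
      rw [smul_inr]
      congr 1
      apply Subtype.ext
      funext j
      show x.1 j = decide (j - i = 0)
      by_cases hj : j = i
      · subst hj
        simpa using hi
      · have : ¬ (j - i = 0) := by rwa [sub_eq_zero]
        rw [decide_eq_false this]
        by_contra hj'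
        rw [Bool.not_eq_false] at hj'
        exact hj (x.2 _ _ hj' hi)
    funext j
    show x.1 (j - _) = x.1 j
    rw [h0, h0]

lemma equivalence_E (n : ℕ) : Equivalence (E n) where
  refl x := ⟨1, (one_smul _ x).symm⟩
  symm := by
    rintro x y ⟨g, rfl⟩
    exact ⟨g⁻¹, (inv_smul_smul g x).symm⟩
  trans := by
    rintro x y z ⟨g, rfl⟩ ⟨h, rfl⟩
    exact ⟨h * g, (mul_smul h g x).symm⟩

/-- In the Cantor space the complement of a countable set is dense. -/
lemma dense_compl_countable (s : Set (ℕ → Bool)) (hs : s.Countable) : Dense sᶜ := by
  have h1 : ∀ x : ℕ → Bool, Dense ({x}ᶜ : Set (ℕ → Bool)) := by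
    intro x
    rw [dense_compl_singleton_iff_not_open]
    intro hx
    obtain ⟨I, u, hI, hu⟩ := isOpen_pi_iff.1 hx x rfl
    obtain ⟨m, hm⟩ := Infinite.exists_notMem_finset I
    have : Function.update x m (!x m) ∈ ({x} : Set (ℕ → Bool)) := by
      apply hu
      intro i hi
      have him : i ≠ m := fun h => hm (h ▸ hi)
      rw [Function.update_of_ne him]
      exact (hI i hi).2
    have h2 := congrFun (Set.mem_singleton_iff.1 this) m
    simp at h2
  have h2 : sᶜ = ⋂ x ∈ s, ({x}ᶜ : Set (ℕ → Bool)) := by
    ext y
    simp only [Set.mem_compl_iff, Set.mem_iInter, Set.mem_singleton_iff]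
    constructor
    · intro h x hx hyx
      exact h (hyx ▸ hx)
    · intro h hy
      exact h y hy rfl
  rw [h2]
  exact dense_biInter_of_isOpen (fun x _ => isOpen_compl_singleton) hs (fun x _ => h1 x)

/-- A countable Borel equivalence relation on `X` with exactly one class which is not a singleton
is not realized on the Cantor space. -/
lemma not_realized {X : Type} [MeasurableSpace X] (E : X → X → Prop) (x₀ y₀ : X) (hxy : E x₀ y₀)
    (hne : y₀ ≠ x₀) (hc : {y | E x₀ y}.Countable) (ho : ∀ x, ¬ E x₀ x → ∀ y, E x y → y = x) :
    ¬ RealizedOn E (ℕ → Bool) := by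
  rintro ⟨Γ, _, _, _, hcont, f, -, hf, hE⟩
  have hfix : ∀ γ : Γ, ∀ z : ℕ → Bool, γ • z = z := by
    intro γ z
    have hcl : IsClosed {z : ℕ → Bool | γ • z = z} := isClosed_eq (hcont γ) continuous_id
    have hd : Dense {z : ℕ → Bool | γ • z = z} := by
      refine (dense_compl_countable (f '' {y | E x₀ y}) (hc.image f)).mono ?_
      intro z hz
      obtain ⟨x, rfl⟩ := hf.2 z
      have hx : ¬ E x₀ x := fun h => hz ⟨x, h, rfl⟩
      obtain ⟨y, hy⟩ := hf.2 (γ • f x)
      have h1 : E x y := (hE x y).2 ⟨γ, hy⟩
      have h2 := ho x hx y h1
      show γ • f x = f x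
      rw [← hy, h2]
    have := hcl.closure_eq ▸ hd.closure_eq
    exact (Set.eq_univ_iff_forall.1 this) z
  obtain ⟨γ, hγ⟩ := (hE x₀ y₀).1 hxy
  rw [hfix] at hγ
  exact hne (hf.1 hγ)

/-- **Negative answer to Q1.**  For every `κ` with `2 ≤ κ` (`κ = ⊤` means countably infinite) there
is a countable Borel equivalence relation on an uncountable standard Borel space, with exactly one
class which is not a singleton and with `κ` elements in this class, which admits a compact action
realization but is not Borel isomorphic to the orbit equivalence relation of any continuous action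
of a countable group on the Cantor space `ℕ → Bool`. -/
theorem result (κ : ℕ∞) (hκ : 2 ≤ κ) :
    ∃ (X : Type) (_ : MeasurableSpace X) (E : X → X → Prop),
      StandardBorelSpace X ∧ Uncountable X ∧ IsCBER E ∧
      (∃ x₀, {y | E x₀ y}.encard = κ ∧ ∀ x, ¬ E x₀ x → ∀ y, E x y → y = x) ∧
      AdmitsCompactActionRealization E ∧ ¬ RealizedOn E (ℕ → Bool) := by
  obtain ⟨n, hn1, hn⟩ : ∃ n : ℕ, n ≠ 1 ∧ (Set.univ : Set (ZMod n)).encard = κ := by
    induction κ using ENat.recTopCoe with
    | top =>
      refine ⟨0, by norm_num, ?_⟩
      rw [Set.encard_eq_top_iff]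
      exact Set.infinite_univ (α := ℤ)
    | coe k =>
      have hk : 2 ≤ k := by exact_mod_cast hκ
      refine ⟨k, by omega, ?_⟩
      have : NeZero k := ⟨by omega⟩
      rw [Set.encard_univ, ENat.card_eq_coe_fintype_card, ZMod.card]
  let _ : MeasurableSpace (Sp n) := borel (Sp n)
  have : BorelSpace (Sp n) := ⟨rfl⟩
  have hpol : PolishSpace (Sp n) := by
    letI := TopologicalSpace.metrizableSpaceMetric (Sp n)
    infer_instance
  have hclass : {y | E n (Sum.inr (pt n)) y}.encard = κ := by
    rw [class_pt, ← Set.image_univ, Function.Injective.encard_image, hn]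
    intro a b h
    exact shift_pt_inj (Sum.inr_injective h)
  have hcount : ∀ x : Sp n, {y | E n x y}.Countable := by
    intro x
    have : {y | E n x y} = Set.range fun g : Multiplicative (ZMod n) => g • x := by
      ext y
      constructor
      · rintro ⟨g, rfl⟩
        exact ⟨g, rfl⟩
      · rintro ⟨g, rfl⟩
        exact ⟨g, rfl⟩
    rw [this]
    have : Countable (Multiplicative (ZMod n)) := inferInstanceAs (Countable (ZMod n))
    exact Set.countable_range _
  refine ⟨Sp n, inferInstance, E n, inferInstance, ?_, ⟨equivalence_E n, ?_, hcount⟩,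
    ⟨Sum.inr (pt n), hclass, fun x hx y hxy => other x hx y hxy⟩, ?_, ?_⟩
  · have h0 : Uncountable (ℕ → Bool) := by
      rw [← Cardinal.aleph0_lt_mk_iff]
      simp [Cardinal.aleph0_lt_continuum]
    have : Function.Injective (Sum.inl : (ℕ → Bool) → Sp n) := Sum.inl_injective
    exact this.uncountable
  · have : {p : Sp n × Sp n | E n p.1 p.2} =
        ⋃ g : Multiplicative (ZMod n), {p : Sp n × Sp n | p.2 = g • p.1} := by
      ext p
      simp [E]
    rw [this]
    have : Countable (Multiplicative (ZMod n)) := inferInstanceAs (Countable (ZMod n))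
    refine MeasurableSet.iUnion fun g => ?_
    exact (isClosed_eq continuous_snd ((continuous_smul g).comp continuous_fst)).measurableSet
  · refine ⟨Sp n, inferInstance, inferInstance, inferInstance, Multiplicative (ZMod n),
      inferInstance, inferInstanceAs (Countable (ZMod n)), inferInstance,
      fun g => continuous_smul g, id, measurable_id, Function.bijective_id, fun x y => Iff.rfl⟩
  · have h2 : ∃ y, E n (Sum.inr (pt n)) y ∧ y ≠ Sum.inr (pt n) := by
      by_contra hcon
      push Not at hcon
      have h3 : {y | E n (Sum.inr (pt n)) y} ⊆ {Sum.inr (pt n)} := fun y hy => hcon y hy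
      have h4 := Set.encard_le_encard h3
      rw [hclass, Set.encard_singleton] at h4
      have h5 : (2 : ℕ∞) ≤ 1 := hκ.trans h4
      exact absurd h5 (by decide)
    obtain ⟨y, hy, hne⟩ := h2
    exact not_realized (E n) _ y hy hne (hcount _) (fun x hx y hxy => other x hx y hxy)

end Pool.Agent.Results.MP_04fd10_lc.NoCantorRealizationH3
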